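import Pool.Agent.H71.TP.Basic

set_option autoImplicit false

/-!
In a finite automorphic loop of odd order only the identity is its own inverse (helper72's proof,
note 6920).
-/

namespace ALoop

open Equiv

variable {Q : Type*} {G : Subgroup (Perm Q)} {L : Q → Perm Q} {J : Perm Q} {e : Q}

namespace AL0

/-- the family: 2-subgroups of `G⟨J⟩` that contain `J` and fix `e` and `b ≠ e` -/
def Fam (h : AL0 G L J e) (R : Subgroup (Perm Q)) (b : Q) : Prop :=
  R ≤ h.H ∧ IsPGroup 2 R ∧ J ∈ R ∧ b ≠ e ∧ ∀ r ∈ R, r e = e ∧ r b = b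

private theorem two_zpowers {x : Perm Q} {n : ℕ} (hx : x ^ (2 ^ n) = 1) :
    IsPGroup 2 (Subgroup.zpowers x) := by
  rintro ⟨_, k, rfl⟩
  refine ⟨n, Subtype.ext ?_⟩
  change (x ^ k) ^ (2 ^ n) = 1
  rw [← zpow_natCast, ← zpow_mul, mul_comm, zpow_mul, zpow_natCast, hx, one_zpow]

/-- extension by one element -/
private theorem ext_mem [Finite Q] (h : AL0 G L J e) {R S : Subgroup (Perm Q)}
    (hmax : ∀ T b, h.Fam T b → Nat.card T ≤ Nat.card R) (hcard : Nat.card S = Nat.card R)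
    (hS : S ≤ h.H) (hS2 : IsPGroup 2 S) {c : Q} (hc : c ≠ e) (hfix : ∀ s ∈ S, s e = e ∧ s c = c)
    {x : Perm Q} (hx : x ∈ h.H) (hx2 : IsPGroup 2 (Subgroup.zpowers x))
    (hnorm : ∀ s ∈ S, x * s * x⁻¹ ∈ S) (hxe : x e = e) (hxc : x c = c)
    (hJ : J ∈ S ⊔ Subgroup.zpowers x) : x ∈ S := by
  have : Fact (Nat.Prime 2) := ⟨Nat.prime_two⟩
  have hN : Subgroup.zpowers x ≤ Subgroup.normalizer (S : Set (Perm Q)) := by
    rw [Subgroup.zpowers_le]
    exact Subgroup.mem_normalizer_fintype hnorm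
  have h2 : IsPGroup 2 (Subgroup.zpowers x ⊔ S : Subgroup (Perm Q)) :=
    hx2.to_sup_of_normal_right' hS2 hN
  have hle : Subgroup.zpowers x ⊔ S ≤ h.H ⊓
      ((MulAction.stabilizer (Perm Q) e) ⊓ (MulAction.stabilizer (Perm Q) c)) := by
    refine sup_le ?_ ?_
    · rw [Subgroup.zpowers_le]
      exact ⟨hx, hxe, hxc⟩
    · intro s hs
      exact ⟨hS hs, (hfix s hs).1, (hfix s hs).2⟩
  have h3 : h.Fam (Subgroup.zpowers x ⊔ S) c := by
    refine ⟨fun r hr => (hle hr).1, h2, ?_, hc, fun r hr => ⟨(hle hr).2.1, (hle hr).2.2⟩⟩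
    rwa [sup_comm] at hJ
  have h4 := hmax _ _ h3
  rw [← hcard] at h4
  have h5 : S = Subgroup.zpowers x ⊔ S := by
    apply Subgroup.eq_of_le_of_card_ge le_sup_right h4
  rw [h5]
  exact (le_sup_left : Subgroup.zpowers x ≤ Subgroup.zpowers x ⊔ S) (Subgroup.mem_zpowers x)

/-- an element of `G⟨J⟩` fixing `e` and `b = J b` commutes with `J`, and is in `G` or in `G J` -/
private theorem part (h : AL0 G L J e) {r : Perm Q} (hr : r ∈ h.H) (hre : r e = e) {b : Q}
    (hrb : r b = b) (hb : J b = b) :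
    ∃ g ∈ G, g e = e ∧ g b = b ∧ (r = g ∨ r = g * J) := by
  rcases hr with hr | hr
  · exact ⟨r, hr, hre, hrb, Or.inl rfl⟩
  · refine ⟨r * J, hr, ?_, ?_, Or.inr ?_⟩
    · rw [Perm.mul_apply, h.Je, hre]
    · rw [Perm.mul_apply, hb, hrb]
    · rw [mul_assoc, h.JJ1, mul_one]

theorem fix_of_odd [Finite Q] (h : AL0 G L J e) (hodd : Odd (Nat.card Q)) :
    ∀ x, J x = x → x = e := by
  classical
  have : Fact (Nat.Prime 2) := ⟨Nat.prime_two⟩
  intro x0 hx0
  by_contra hne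
  have hJ2 : J ^ (2 ^ 1) = 1 := by
    rw [pow_one, pow_two]; exact h.JJ1
  -- a maximal member of the family
  have hfam0 : h.Fam (Subgroup.zpowers J) x0 := by
    have hle : Subgroup.zpowers J ≤ h.H ⊓
        ((MulAction.stabilizer (Perm Q) e) ⊓ (MulAction.stabilizer (Perm Q) x0)) := by
      rw [Subgroup.zpowers_le]
      exact ⟨h.J_mem, h.Je, hx0⟩
    exact ⟨fun r hr => (hle hr).1, two_zpowers hJ2, Subgroup.mem_zpowers J, hne,
      fun r hr => ⟨(hle hr).2.1, (hle hr).2.2⟩⟩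
  obtain ⟨R, ⟨b, hRb⟩, hmax'⟩ := Set.exists_max_image {T : Subgroup (Perm Q) | ∃ b, h.Fam T b}
    (fun T => Nat.card T) (Set.toFinite _) ⟨_, x0, hfam0⟩
  have hmax : ∀ T b, h.Fam T b → Nat.card T ≤ Nat.card R := fun T c hT => hmax' T ⟨c, hT⟩
  obtain ⟨hRH, hR2, hJR, hbe, hRfix⟩ := hRb
  have hJb : J b = b := (hRfix J hJR).2
  have hbb : L b b = e := by
    have h1 := h.LJ b
    rwa [hJb] at h1
  -- `D_b` is in `R`
  have hLinv : (L b)⁻¹ e = b := by rw [Perm.inv_eq_iff_eq, hbb]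
  have hLinv' : (L b)⁻¹ b = e := by rw [Perm.inv_eq_iff_eq, h.Le]
  have hDb : D L J b ∈ R := by
    have hDH : D L J b ∈ h.H := by
      unfold D
      exact h.H.mul_mem (h.H.mul_mem (h.le_H (h.memL b)) h.J_mem)
        (h.H.inv_mem (h.le_H (h.memL b)))
    refine h.ext_mem (S := R) hmax rfl hRH hR2 hbe hRfix hDH (two_zpowers (n := 1) ?_) ?_ ?_ ?_
      ((le_sup_left : R ≤ R ⊔ Subgroup.zpowers (D L J b)) hJR)
    · rw [pow_one, pow_two]
      unfold D
      calc L b * J * (L b)⁻¹ * (L b * J * (L b)⁻¹) = L b * (J * J) * (L b)⁻¹ := by group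
        _ = 1 := by rw [h.JJ1]; group
    · intro s hs
      have h1 := h.D_conj (hRH hs) b
      rw [(hRfix s hs).2, mul_inv_eq_iff_eq_mul] at h1
      rw [← h1]
      have h2 : s * D L J b * (D L J b)⁻¹ = s := by group
      rw [h2]
      exact hs
    · unfold D
      simp only [Perm.mul_apply]
      rw [hLinv, hJb, hbb]
    · unfold D
      simp only [Perm.mul_apply]
      rw [hLinv', h.Je, h.Le]
  -- `L_b` normalises `R`
  have hnormL : ∀ s ∈ R, L b * s * (L b)⁻¹ ∈ R := by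
    intro s hs
    obtain ⟨g, hg, hge, hgb, h1⟩ := h.part (hRH hs) (hRfix s hs).1 (hRfix s hs).2 hJb
    have h2 := h.comL hg hge hgb
    rcases h1 with rfl | rfl
    · rw [← h2]
      have h3 : s * L b * (L b)⁻¹ = s := by group
      rw [h3]; exact hs
    · have h3 : L b * (g * J) * (L b)⁻¹ = (g * J) * J⁻¹ * (L b * J * (L b)⁻¹) := by
        calc L b * (g * J) * (L b)⁻¹ = (L b * g) * J * (L b)⁻¹ := by group
          _ = (g * L b) * J * (L b)⁻¹ := by rw [h2]
          _ = _ := by group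
      rw [h3]
      exact R.mul_mem (R.mul_mem hs (R.inv_mem hJR)) hDb
  -- the 2-part of `L_b`
  obtain ⟨k, m, hm, hkm⟩ := Nat.exists_eq_two_pow_mul_odd (orderOf_pos (L b)).ne'
  obtain ⟨u, hu⟩ : ∃ u, u = (L b) ^ m := ⟨_, rfl⟩
  have hu2 : IsPGroup 2 (Subgroup.zpowers u) := by
    refine two_zpowers (n := k) ?_
    rw [hu, ← pow_mul, mul_comm, ← hkm, pow_orderOf_eq_one]
  have huG : u ∈ G := by rw [hu]; exact G.pow_mem (h.memL b) m
  have hnormU : ∀ s ∈ R, u * s * u⁻¹ ∈ R := by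
    have key : ∀ j : ℕ, ∀ s ∈ R, (L b) ^ j * s * ((L b) ^ j)⁻¹ ∈ R := by
      intro j
      induction j with
      | zero => intro s hs; simpa using hs
      | succ j ih =>
        intro s hs
        have h1 := hnormL _ (ih s hs)
        have h2 : L b ^ (j + 1) * s * (L b ^ (j + 1))⁻¹ =
            L b * (L b ^ j * s * (L b ^ j)⁻¹) * (L b)⁻¹ := by
          rw [pow_succ']; group
        rw [h2]; exact h1
    rw [hu]; exact key m
  have hLL : ∀ j : ℕ, ((L b) ^ (2 * j)) e = e ∧ ((L b) ^ (2 * j)) b = b := by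
    intro j
    induction j with
    | zero => simp
    | succ j ih =>
      have h1 : L b ^ (2 * (j + 1)) = L b ^ (2 * j) * (L b * L b) := by
        rw [mul_add, pow_add, mul_one, pow_two]
      rw [h1]
      simp only [Perm.mul_apply]
      rw [h.Le, hbb, ih.1, h.Le, ih.2]
      exact ⟨rfl, rfl⟩
  obtain ⟨hue, hub⟩ : u e = b ∧ u b = e := by
    obtain ⟨j, hj⟩ := hm
    rw [hu, hj, pow_succ, Perm.mul_apply, Perm.mul_apply, h.Le, hbb]
    exact ⟨(hLL j).2, (hLL j).1⟩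
  -- a common fixed point of `R` and `u`
  have hWN : Subgroup.zpowers u ≤ Subgroup.normalizer (R : Set (Perm Q)) := by
    rw [Subgroup.zpowers_le]
    exact Subgroup.mem_normalizer_fintype hnormU
  obtain ⟨W, hW⟩ : ∃ W : Subgroup (Perm Q), W = Subgroup.zpowers u ⊔ R := ⟨_, rfl⟩
  have hW2 : IsPGroup 2 W := by
    rw [hW]
    exact hu2.to_sup_of_normal_right' hR2 hWN
  obtain ⟨p, hp⟩ : ∃ p, ∀ w ∈ W, w p = p := by
    have h1 := hW2.card_modEq_card_fixedPoints Q
    have h2 : (MulAction.fixedPoints W Q).Nonempty := by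
      by_contra h3
      rw [Set.not_nonempty_iff_eq_empty] at h3
      rw [h3] at h1
      have h4 : 2 ∣ Nat.card Q := by
        have h5 : Nat.card Q ≡ 0 [MOD 2] := by simpa using h1
        exact Nat.modEq_zero_iff_dvd.1 h5
      exact (Nat.not_even_iff_odd.2 hodd) (even_iff_two_dvd.2 h4)
    obtain ⟨p, hp⟩ := h2
    exact ⟨p, fun w hw => hp ⟨w, hw⟩⟩
  have huW : u ∈ W := by
    rw [hW]
    exact (le_sup_left : Subgroup.zpowers u ≤ Subgroup.zpowers u ⊔ R) (Subgroup.mem_zpowers u)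
  have hRW : ∀ r ∈ R, r p = p := by
    intro r hr
    apply hp
    rw [hW]
    exact (le_sup_right : R ≤ Subgroup.zpowers u ⊔ R) hr
  have hup : u p = p := hp u huW
  have hpe : p ≠ e := by
    rintro rfl
    exact hbe (hue.symm.trans hup)
  -- base change
  obtain ⟨g, hg⟩ : ∃ g, g = L p := ⟨_, rfl⟩
  have hgG : g ∈ G := by rw [hg]; exact h.memL p
  have hge : g e = p := by rw [hg, h.Le]
  have hgp : g⁻¹ p = e := by rw [Perm.inv_eq_iff_eq, hge]
  obtain ⟨a', ha'⟩ : ∃ a', a' = g⁻¹ e := ⟨_, rfl⟩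
  obtain ⟨b', hb'⟩ : ∃ b', b' = g⁻¹ b := ⟨_, rfl⟩
  have hga : g a' = e := by rw [ha']; exact g.apply_symm_apply e
  have hgb : g b' = b := by rw [hb']; exact g.apply_symm_apply b
  have hae : a' ≠ e := by
    intro h1
    rw [h1, hge] at hga
    exact hpe hga
  have hab : a' ≠ b' := by
    intro h1
    rw [h1, hgb] at hga
    exact hbe hga
  obtain ⟨S, hSdef⟩ : ∃ S : Subgroup (Perm Q), S = R.map (MulAut.conj g⁻¹).toMonoidHom := ⟨_, rfl⟩
  have hSmem : ∀ s, s ∈ S ↔ g * s * g⁻¹ ∈ R := by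
    intro s
    rw [hSdef]
    constructor
    · rintro ⟨r, hr, rfl⟩
      change g * (g⁻¹ * r * (g⁻¹)⁻¹) * g⁻¹ ∈ R
      have h1 : g * (g⁻¹ * r * (g⁻¹)⁻¹) * g⁻¹ = r := by group
      rw [h1]; exact hr
    · intro hs
      refine ⟨g * s * g⁻¹, hs, ?_⟩
      change g⁻¹ * (g * s * g⁻¹) * (g⁻¹)⁻¹ = s
      group
  have hScard : Nat.card S = Nat.card R := by
    rw [hSdef]
    exact Subgroup.card_map_of_injective (MulAut.conj g⁻¹).injective
  have hS2 : IsPGroup 2 S := by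
    rw [hSdef]; exact hR2.map _
  have hSH : S ≤ h.H := by
    intro s hs
    have h1 := hRH ((hSmem s).1 hs)
    have h2 : s = g⁻¹ * (g * s * g⁻¹) * g := by group
    rw [h2]
    exact h.H.mul_mem (h.H.mul_mem (h.H.inv_mem (h.le_H hgG)) h1) (h.le_H hgG)
  have hSfix : ∀ s ∈ S, s e = e ∧ s a' = a' ∧ s b' = b' := by
    intro s hs
    have h1 := (hSmem s).1 hs
    have h2 : ∀ y, (g * s * g⁻¹) (g y) = g y → s y = y := by
      intro y hy
      have h3 : g⁻¹ (g y) = y := g.symm_apply_apply y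
      simp only [Perm.mul_apply] at hy
      rw [h3] at hy
      exact g.injective hy
    refine ⟨h2 e ?_, h2 a' ?_, h2 b' ?_⟩
    · rw [hge]; exact hRW _ h1
    · rw [hga]; exact (hRfix _ h1).1
    · rw [hgb]; exact (hRfix _ h1).2
  have hDa : D L J a' ∈ S := by
    rw [hSmem, h.D_conj (h.le_H hgG), hga, h.D_e]
    exact hJR
  have haa : J a' = a' := by
    have h1 := (hSfix _ hDa).1
    unfold D at h1
    simp only [Perm.mul_apply] at h1
    have h2 : (L a')⁻¹ e = J a' := by rw [Perm.inv_eq_iff_eq, h.LJ]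
    rw [h2, h.JJ] at h1
    apply (L a').injective
    rw [h.LJ, h1]
  -- `J` is in `S`
  have hJS : J ∈ S := by
    refine h.ext_mem hmax hScard hSH hS2 hae (fun s hs => ⟨(hSfix s hs).1, (hSfix s hs).2.1⟩)
      h.J_mem (two_zpowers hJ2) ?_ h.Je haa
      ((le_sup_right : Subgroup.zpowers J ≤ S ⊔ Subgroup.zpowers J) (Subgroup.mem_zpowers J))
    intro s hs
    have h1 := h.comJH (hSH hs) (hSfix s hs).1
    have h2 : J * s * J⁻¹ = s := by rw [← h1]; group
    rw [h2]; exact hs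
  have hJb' : J b' = b' := (hSfix J hJS).2.2
  -- `a' b' = b' a'`
  obtain ⟨s0, hs0⟩ : ∃ s0, s0 = D L J a' * J := ⟨_, rfl⟩
  have hs0S : s0 ∈ S := by rw [hs0]; exact S.mul_mem hDa hJS
  have hs0G : s0 ∈ G := by
    have h1 : s0 = L a' * (J * (L a')⁻¹ * J) := by rw [hs0]; unfold D; group
    rw [h1]
    exact G.mul_mem (h.memL _) (h.JG _ (G.inv_mem (h.memL _)))
  have hs0c := h.comL hs0G (hSfix _ hs0S).1 (hSfix _ hs0S).2.1
  obtain ⟨c, hc⟩ : ∃ c, c = L a' b' := ⟨_, rfl⟩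
  have hJc : J c = c := by
    -- `s0 * (J * L a' * J) = L a'`
    have h1 : s0 * (J * L a' * J) = L a' := by
      rw [hs0]; unfold D
      calc L a' * J * (L a')⁻¹ * J * (J * L a' * J) =
          L a' * J * (L a')⁻¹ * (J * J) * L a' * J := by group
        _ = L a' * J * (L a')⁻¹ * 1 * L a' * J := by rw [h.JJ1]
        _ = L a' * (J * J) := by group
        _ = L a' := by rw [h.JJ1, mul_one]
    have h2 : J * L a' * J = s0⁻¹ * L a' := by
      calc J * L a' * J = s0⁻¹ * (s0 * (J * L a' * J)) := by group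
        _ = s0⁻¹ * L a' := by rw [h1]
    have h3 : s0⁻¹ * L a' = L a' * s0⁻¹ := by
      calc s0⁻¹ * L a' = s0⁻¹ * (L a' * s0) * s0⁻¹ := by group
        _ = s0⁻¹ * (s0 * L a') * s0⁻¹ := by rw [hs0c]
        _ = _ := by group
    rw [h3] at h2
    have h4 := congrArg (fun f : Perm Q => f b') h2
    simp only [Perm.mul_apply] at h4
    rw [hJb'] at h4
    have h5 : s0⁻¹ b' = b' := by rw [Perm.inv_eq_iff_eq, (hSfix _ hs0S).2.2]
    rw [h5] at h4
    rw [hc]; exact h4
  have hcc : L b' a' = c := by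
    have h1 := h.aaip a' b'
    rw [← hc, hJc, haa, hJb'] at h1
    exact h1.symm
  have haut : ∀ g ∈ G, g e = e → ∀ x y, g (L x y) = L (g x) (g y) := by
    intro g hg he x y
    have h1 := h.equi g hg he x
    rw [mul_inv_eq_iff_eq_mul] at h1
    have h2 := congrArg (fun p : Perm Q => p y) h1
    simpa using h2
  have hSc : ∀ s ∈ S, s c = c := by
    intro s hs
    obtain ⟨f, hf, hfe, hfa, h1⟩ := h.part (hSH hs) (hSfix s hs).1 (hSfix s hs).2.1 haa
    have hfb : f b' = b' := by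
      rcases h1 with rfl | rfl
      · exact (hSfix _ hs).2.2
      · have h2 := (hSfix _ hs).2.2
        rwa [Perm.mul_apply, hJb'] at h2
    have hfc : f c = c := by rw [hc, haut f hf hfe, hfa, hfb]
    rcases h1 with rfl | rfl
    · exact hfc
    · rw [Perm.mul_apply, hJc, hfc]
  obtain ⟨u', hu'⟩ : ∃ u', u' = g⁻¹ * u * g := ⟨_, rfl⟩
  have hu'G : u' ∈ G := by
    rw [hu']; exact G.mul_mem (G.mul_mem (G.inv_mem hgG) huG) hgG
  have hu'e : u' e = e := by
    rw [hu']; simp only [Perm.mul_apply]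
    rw [hge, hup, hgp]
  have hu'a : u' a' = b' := by
    rw [hu']; simp only [Perm.mul_apply]
    rw [hga, hue, hb']
  have hu'b : u' b' = a' := by
    rw [hu']; simp only [Perm.mul_apply]
    rw [hgb, hub, ha']
  have hu'c : u' c = c := by
    rw [hc, haut u' hu'G hu'e, hu'a, hu'b, hcc, hc]
  by_cases hce : c = e
  · -- `a' b' = e`
    have h1 : L a' b' = L a' a' := by
      rw [← hc, hce]
      have h2 := h.LJ a'
      rw [haa] at h2
      exact h2.symm
    exact hab ((L a').injective h1).symm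
  · have h1 : u' ∈ S := by
      refine h.ext_mem hmax hScard hSH hS2 hce (fun s hs => ⟨(hSfix s hs).1, hSc s hs⟩)
        (h.le_H hu'G) (two_zpowers (n := k) ?_) ?_ hu'e hu'c
        ((le_sup_left : S ≤ S ⊔ Subgroup.zpowers u') hJS)
      · have h2 : u' ^ (2 ^ k) = g⁻¹ * u ^ (2 ^ k) * g := by
          rw [hu']
          have h3 := conj_pow (i := 2 ^ k) (a := g⁻¹) (b := u)
          rw [inv_inv] at h3
          exact h3
        rw [h2, hu, ← pow_mul, mul_comm m, ← hkm, pow_orderOf_eq_one]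
        group
      · intro s hs
        rw [hSmem] at hs ⊢
        have h2 := hnormU _ hs
        have h3 : g * (u' * s * u'⁻¹) * g⁻¹ = u * (g * s * g⁻¹) * u⁻¹ := by
          rw [hu']; group
        rw [h3]; exact h2
    have h2 := (hSfix _ h1).2.1
    rw [hu'a] at h2
    exact hab h2.symm

end AL0

end ALoop
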